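import Mathlib
import Pool.Agent.H34.L.W5h81.RF.Race

/-!
# Bounds for the race of two sums of exponential random variables
-/

set_option autoImplicit false

open Finset MeasureTheory Complex Set

namespace Pool.Agent.W5h81.RF

variable {ι : Type*} [DecidableEq ι] (s : ι → ℝ)

lemma F_single {v l : ι} (B : Finset ι) (hv : 0 < s v) (hl : l ∈ B) (hl1 : s l = 1)
    (hB : ∀ u ∈ B, 0 < s u) (hinj : Set.InjOn s B) : s v / (s v + 1) ≤ F s {v} B := by
  induction B using Finset.strongInduction with
  | H B ih =>
    by_cases h : ∃ b ∈ B, b ≠ l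
    · obtain ⟨b, hb, hbl⟩ := h
      have h1 := F_rec s (A := {v}) (B := B) (Finset.mem_singleton_self v) hb
        (by simpa using hv) hB
      have h2 := ih (B.erase b) (Finset.erase_ssubset hb) (Finset.mem_erase.2 ⟨hbl.symm, hl⟩)
        (fun u hu => hB u (Finset.mem_of_mem_erase hu))
        (hinj.mono (by exact_mod_cast Finset.erase_subset b B))
      have e : ({v} : Finset ι).erase v = ∅ := by simp
      rw [e, F_empty s B hB hinj ⟨b, hb⟩, mul_one] at h1
      have hb0 := hB b hb
      have h3 : s b * (s v / (s v + 1)) ≤ s b * F s {v} (B.erase b) :=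
        mul_le_mul_of_nonneg_left h2 hb0.le
      have h4 : (s v + s b) * (s v / (s v + 1)) ≤ (s v + s b) * F s {v} B := by
        rw [h1]
        refine le_trans ?_ (add_le_add le_rfl h3)
        have h5 : s v * (s v / (s v + 1)) ≤ s v * 1 := by
          apply mul_le_mul_of_nonneg_left _ hv.le
          rw [div_le_one (by linarith)]
          linarith
        linarith
      exact le_of_mul_le_mul_left h4 (by linarith)
    · push Not at h
      have hB1 : B = {l} := by
        ext u
        rw [Finset.mem_singleton]
        exact ⟨fun hu => h u hu, fun hu => hu ▸ hl⟩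
      subst hB1
      have h1 := F_rec s (A := {v}) (B := {l}) (Finset.mem_singleton_self v)
        (Finset.mem_singleton_self l) (by simpa using hv) hB
      have e : ({v} : Finset ι).erase v = ∅ := by simp
      have e' : ({l} : Finset ι).erase l = ∅ := by simp
      rw [e, e', F_empty s {l} hB hinj ⟨l, by simp⟩,
        F_empty' s {v} (by simpa using hv) (by simp) ⟨v, by simp⟩, hl1] at h1
      rw [div_le_iff₀ (by linarith)]
      linarith

lemma F_step {v l : ι} (hv : 0 < s v) (hl1 : s l = 1) (n : ℕ) : ∀ (A B : Finset ι),
    A.card + B.card = n → (∀ u ∈ A, 0 < s u) → (∀ u ∈ B, 0 < s u) →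
    Set.InjOn s (insert v A : Finset ι) → Set.InjOn s B → v ∉ A → l ∈ B →
    F s A B - F s (insert v A) B ≤ 1 / (s v + 1) := by
  induction n using Nat.strong_induction_on with
  | _ n ih =>
    intro A B hn hA hB hiA hiB hvA hl
    have hiA' : Set.InjOn s A := hiA.mono (by simp)
    rcases A.eq_empty_or_nonempty with rfl | ⟨a, ha⟩
    · have h1 := F_single s B hv hl hl1 hB hiB
      rw [F_empty s B hB hiB ⟨l, hl⟩]
      have e : insert v (∅ : Finset ι) = {v} := by simp
      rw [e]
      have h2 : 1 - s v / (s v + 1) = 1 / (s v + 1) := by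
        field_simp
        ring
      linarith
    · have hav : a ≠ v := fun h => hvA (h ▸ ha)
      have ha0 := hA a ha
      have hvi : ∀ u ∈ insert v A, 0 < s u := by
        intro u hu
        rcases Finset.mem_insert.1 hu with rfl | hu
        · exact hv
        · exact hA u hu
      have e : (insert v A).erase a = insert v (A.erase a) :=
        Finset.erase_insert_of_ne hav.symm
      have hcard : (A.erase a).card + B.card < n := by
        have := Finset.card_erase_lt_of_mem ha
        omega
      have ih1 := ih _ hcard (A.erase a) B rfl (fun u hu => hA u (Finset.mem_of_mem_erase hu)) hB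
        (hiA.mono (by
          intro x hx
          simp only [Finset.coe_insert, Set.mem_insert_iff, Finset.mem_coe, Finset.mem_erase] at hx ⊢
          tauto)) hiB (fun h => hvA (Finset.mem_of_mem_erase h)) hl
      have hpos : 0 < 1 / (s v + 1) := by positivity
      by_cases h : ∃ b ∈ B, b ≠ l
      · obtain ⟨b, hb, hbl⟩ := h
        have hb0 := hB b hb
        have r1 := F_rec s ha hb hA hB
        have r2 := F_rec s (A := insert v A) (B := B) (a := a) (b := b)
          (Finset.mem_insert_of_mem ha) hb hvi hB
        rw [e] at r2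
        have hcard2 : A.card + (B.erase b).card < n := by
          have := Finset.card_erase_lt_of_mem hb
          omega
        have ih2 := ih _ hcard2 A (B.erase b) rfl hA
          (fun u hu => hB u (Finset.mem_of_mem_erase hu)) hiA
          (hiB.mono (by exact_mod_cast Finset.erase_subset b B)) hvA
          (Finset.mem_erase.2 ⟨hbl.symm, hl⟩)
        have h1 : (s a + s b) * (F s A B - F s (insert v A) B) ≤ (s a + s b) * (1 / (s v + 1)) := by
          have h2 := mul_le_mul_of_nonneg_left ih1 ha0.le
          have h3 := mul_le_mul_of_nonneg_left ih2 hb0.le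
          rw [mul_sub] at h2 h3 ⊢
          rw [r1, r2]
          linarith
        exact le_of_mul_le_mul_left h1 (by linarith)
      · push Not at h
        have hB1 : B = {l} := by
          ext u
          rw [Finset.mem_singleton]
          exact ⟨fun hu => h u hu, fun hu => hu ▸ hl⟩
        subst hB1
        have r1 := F_rec s ha hl hA hB
        have r2 := F_rec s (A := insert v A) (B := {l}) (a := a) (b := l)
          (Finset.mem_insert_of_mem ha) hl hvi hB
        rw [e] at r2
        have e' : ({l} : Finset ι).erase l = ∅ := by simp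
        rw [e', F_empty' s A hA hiA' ⟨a, ha⟩] at r1
        rw [e', F_empty' s (insert v A) hvi hiA ⟨v, by simp⟩] at r2
        have h1 : (s a + s l) * (F s A {l} - F s (insert v A) {l}) ≤
            (s a + s l) * (1 / (s v + 1)) := by
          have h2 := mul_le_mul_of_nonneg_left ih1 ha0.le
          rw [mul_sub] at h2 ⊢
          rw [r1, r2, hl1]
          nlinarith
        exact le_of_mul_le_mul_left h1 (by rw [hl1]; linarith)

/-- Chebyshev's inequality for the race -/
lemma F_cheb {c : ℝ} (hc : 0 < c) (n : ℕ) : ∀ (A B : Finset ι),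
    A.card + B.card = n → (∀ u ∈ A, 0 < s u) → (∀ u ∈ B, 0 < s u) →
    Set.InjOn s A → Set.InjOn s B → (A ∪ B).Nonempty →
    F s A B * c ^ 2 ≤ (∑ u ∈ A, (1 / s u) ^ 2) + (∑ u ∈ B, (1 / s u) ^ 2) +
      ((∑ u ∈ A, 1 / s u) - (∑ u ∈ B, 1 / s u) - c) ^ 2 := by
  induction n using Nat.strong_induction_on with
  | _ n ih =>
    intro A B hn hA hB hiA hiB hne
    have hVA : 0 ≤ ∑ u ∈ A, (1 / s u) ^ 2 := Finset.sum_nonneg fun _ _ => by positivity
    have hVB : 0 ≤ ∑ u ∈ B, (1 / s u) ^ 2 := Finset.sum_nonneg fun _ _ => by positivity
    rcases B.eq_empty_or_nonempty with rfl | ⟨b, hb⟩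
    · have hA0 : A.Nonempty := by simpa using hne
      rw [F_empty' s A hA hiA hA0, zero_mul]
      positivity
    rcases A.eq_empty_or_nonempty with rfl | ⟨a, ha⟩
    · rw [F_empty s B hB hiB ⟨b, hb⟩, one_mul]
      have hm : 0 ≤ ∑ u ∈ B, 1 / s u := Finset.sum_nonneg fun u hu => by
        have := hB u hu; positivity
      simp only [Finset.sum_empty, zero_add, zero_sub]
      nlinarith
    · have ha0 := hA a ha
      have hb0 := hB b hb
      have r := F_rec s ha hb hA hB
      have hc1 : (A.erase a).card + B.card < n := by
        have := Finset.card_erase_lt_of_mem ha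
        omega
      have hc2 : A.card + (B.erase b).card < n := by
        have := Finset.card_erase_lt_of_mem hb
        omega
      have i1 := ih _ hc1 (A.erase a) B rfl (fun u hu => hA u (Finset.mem_of_mem_erase hu)) hB
        (hiA.mono (by exact_mod_cast Finset.erase_subset a A)) hiB
        ⟨b, Finset.mem_union_right _ hb⟩
      have i2 := ih _ hc2 A (B.erase b) rfl hA (fun u hu => hB u (Finset.mem_of_mem_erase hu)) hiA
        (hiB.mono (by exact_mod_cast Finset.erase_subset b B))
        ⟨a, Finset.mem_union_left _ ha⟩
      have e1 := Finset.sum_erase_eq_sub (f := fun u => (1 / s u) ^ 2) ha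
      have e2 := Finset.sum_erase_eq_sub (f := fun u => (1 / s u) ^ 2) hb
      have e3 := Finset.sum_erase_eq_sub (f := fun u => 1 / s u) ha
      have e4 := Finset.sum_erase_eq_sub (f := fun u => 1 / s u) hb
      rw [e1, e3] at i1
      rw [e2, e4] at i2
      set VA := ∑ u ∈ A, (1 / s u) ^ 2
      set VB := ∑ u ∈ B, (1 / s u) ^ 2
      set MA := ∑ u ∈ A, 1 / s u
      set MB := ∑ u ∈ B, 1 / s u
      have h2 := mul_le_mul_of_nonneg_left i1 ha0.le
      have h3 := mul_le_mul_of_nonneg_left i2 hb0.le
      have key : (s a + s b) * (F s A B * c ^ 2) ≤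
          (s a + s b) * (VA + VB + (MA - MB - c) ^ 2) := by
        have e : (s a + s b) * (F s A B * c ^ 2) =
            s a * (F s (A.erase a) B * c ^ 2) + s b * (F s A (B.erase b) * c ^ 2) := by
          rw [← mul_assoc, r]; ring
        rw [e]
        refine (add_le_add h2 h3).trans (le_of_eq ?_)
        field_simp
        ring
      exact le_of_mul_le_mul_left key (by linarith)

end Pool.Agent.W5h81.RF
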