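import Mathlib
import Pool.Agent.H34.L.W5h81.RF.Race

/-!
# Two chains with close moments have a nearly fair race
-/

set_option autoImplicit false

open Finset MeasureTheory Complex Set

namespace Pool.Agent.W5h81.RF

/-- centred inverse of `k` in its dyadic block -/
noncomputable def xx (k : ℕ) : ℝ := 2 ^ (Nat.log 2 k) / k - 3 / 4

lemma abs_xx {k : ℕ} (hk : 1 ≤ k) : |xx k| ≤ 1 / 4 := by
  have h1 : 2 ^ (Nat.log 2 k) ≤ k := Nat.pow_log_le_self 2 (by omega)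
  have h2 : k < 2 ^ (Nat.log 2 k + 1) := Nat.lt_pow_succ_log_self (by norm_num) k
  have h1' : (2 : ℝ) ^ (Nat.log 2 k) ≤ k := by exact_mod_cast h1
  have h2' : (k : ℝ) < 2 ^ (Nat.log 2 k) * 2 := by
    rw [pow_succ] at h2
    exact_mod_cast h2
  have hk0 : (0 : ℝ) < k := by exact_mod_cast hk
  unfold xx
  rw [abs_le]
  constructor
  · have : 1 / 2 ≤ (2 : ℝ) ^ (Nat.log 2 k) / k := by
      rw [le_div_iff₀ hk0]
      linarith
    linarith
  · have : (2 : ℝ) ^ (Nat.log 2 k) / k ≤ 1 := by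
      rw [div_le_iff₀ hk0]
      linarith
    linarith

/-- the parameter of the expansion in a block -/
noncomputable def om (j : ℕ) (t : ℝ) : ℂ :=
  I * (t / 2 ^ j : ℝ) / (1 - I * (3 / 4 * (t / 2 ^ j) : ℝ))

lemma den_ne (c : ℝ) : (1 - I * (c : ℝ) : ℂ) ≠ 0 := by
  intro h
  have := congrArg Complex.re h
  simp at this

lemma norm_den_sq (c : ℝ) : ‖(1 - I * (c : ℝ) : ℂ)‖ ^ 2 = 1 + c ^ 2 := by
  rw [← Complex.normSq_eq_norm_sq, Complex.normSq_apply]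
  simp
  ring

lemma one_le_norm_den (c : ℝ) : 1 ≤ ‖(1 - I * (c : ℝ) : ℂ)‖ := by
  have h := norm_den_sq c
  nlinarith [norm_nonneg (1 - I * (c : ℝ) : ℂ), sq_nonneg c]

lemma le_norm_den {c : ℝ} (hc : 0 ≤ c) : c ≤ ‖(1 - I * (c : ℝ) : ℂ)‖ := by
  have h := norm_den_sq c
  nlinarith [norm_nonneg (1 - I * (c : ℝ) : ℂ)]

lemma norm_om_le {j : ℕ} {t : ℝ} (ht : 0 ≤ t) : ‖om j t‖ ≤ t / 2 ^ j := by
  have h0 : 0 ≤ t / 2 ^ j := by positivity
  unfold om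
  rw [norm_div, norm_mul, Complex.norm_I, one_mul, Complex.norm_real, Real.norm_eq_abs,
    abs_of_nonneg h0]
  exact div_le_self h0 (one_le_norm_den _)

lemma norm_om_le' {j : ℕ} {t : ℝ} (ht : 0 ≤ t) : ‖om j t‖ ≤ 4 / 3 := by
  have h0 : 0 ≤ t / 2 ^ j := by positivity
  unfold om
  rw [norm_div, norm_mul, Complex.norm_I, one_mul, Complex.norm_real, Real.norm_eq_abs,
    abs_of_nonneg h0, div_le_iff₀ (by linarith [one_le_norm_den (3 / 4 * (t / 2 ^ j))])]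
  have := le_norm_den (c := 3 / 4 * (t / 2 ^ j)) (by positivity)
  linarith

/-- the common part of the exponents in a block -/
noncomputable def La (j : ℕ) (t : ℝ) : ℂ := log ((1 - I * (3 / 4 * (t / 2 ^ j) : ℝ))⁻¹)

/-- exponent for a small size -/
noncomputable def Ls (k : ℕ) (t : ℝ) : ℂ :=
  La (Nat.log 2 k) t + log ((1 - om (Nat.log 2 k) t * (xx k : ℝ))⁻¹)

/-- exponent for a big size -/
noncomputable def Lb (k : ℕ) (t : ℝ) : ℂ := log ((1 - I * (t / k : ℝ))⁻¹)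

lemma exp_Lb (k : ℕ) (t : ℝ) : exp (Lb k t) = ph k t := by
  unfold Lb ph
  exact exp_log (inv_ne_zero (den_ne _))

lemma prod_den {k : ℕ} (hk : 1 ≤ k) (t : ℝ) :
    (1 - I * (3 / 4 * (t / 2 ^ (Nat.log 2 k)) : ℝ)) * (1 - om (Nat.log 2 k) t * (xx k : ℝ)) =
      (1 - I * (t / k : ℝ) : ℂ) := by
  have hk0 : (k : ℂ) ≠ 0 := by exact_mod_cast (by omega : k ≠ 0)
  have h1 := den_ne (3 / 4 * (t / 2 ^ (Nat.log 2 k)))
  have h2 : (1 - I * (3 / 4 * (t / 2 ^ (Nat.log 2 k)) : ℝ)) * (om (Nat.log 2 k) t) =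
      I * (t / 2 ^ (Nat.log 2 k) : ℝ) := by
    unfold om
    rw [← mul_div_assoc, mul_div_cancel_left₀ _ h1]
  rw [mul_sub, mul_one, ← mul_assoc, h2]
  unfold xx
  push_cast
  have h3 : (2 : ℂ) ^ (Nat.log 2 k) ≠ 0 := pow_ne_zero _ two_ne_zero
  field_simp
  ring

lemma exp_Ls {k : ℕ} (hk : 1 ≤ k) (t : ℝ) : exp (Ls k t) = ph k t := by
  have h1 := prod_den hk t
  have h2 : (1 - om (Nat.log 2 k) t * (xx k : ℝ) : ℂ) ≠ 0 := by
    intro h
    rw [h, mul_zero] at h1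
    exact den_ne (t / k) h1.symm
  unfold Ls La
  rw [exp_add, exp_log (inv_ne_zero (den_ne _)), exp_log (inv_ne_zero h2), ← mul_inv, h1]
  rfl

lemma neg_logTaylor (n : ℕ) (z : ℂ) :
    logTaylor n (-z) = - ∑ r ∈ Finset.range n, z ^ r / (r : ℂ) := by
  unfold logTaylor
  rw [← Finset.sum_neg_distrib]
  apply Finset.sum_congr rfl
  intro r _
  rw [neg_pow z r, ← mul_assoc, ← pow_add]
  have : (-1 : ℂ) ^ (r + 1 + r) = -1 := by
    rw [show r + 1 + r = 2 * r + 1 by ring, pow_succ, pow_mul]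
    simp
  rw [this]
  ring

lemma Ls_approx {k : ℕ} (hk : 1 ≤ k) {t : ℝ} (ht : 0 ≤ t) (n : ℕ) :
    ‖Ls k t - (La (Nat.log 2 k) t +
      ∑ r ∈ Finset.range (n + 1), om (Nat.log 2 k) t ^ r / (r : ℂ) * ((xx k ^ r : ℝ) : ℂ))‖ ≤
      2 * (t / 2 ^ (Nat.log 2 k)) * (1 / 3) ^ (n + 1) := by
  set z : ℂ := om (Nat.log 2 k) t * (xx k : ℝ) with hz
  have hx := abs_xx hk
  have hzn : ‖z‖ = ‖om (Nat.log 2 k) t‖ * |xx k| := by
    rw [hz, norm_mul, Complex.norm_real, Real.norm_eq_abs]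
  have hz1 : ‖z‖ ≤ (t / 2 ^ (Nat.log 2 k)) * (1 / 4) := by
    rw [hzn]
    exact mul_le_mul (norm_om_le ht) hx (abs_nonneg _) (by positivity)
  have hz2 : ‖z‖ ≤ 1 / 3 := by
    rw [hzn]
    calc ‖om (Nat.log 2 k) t‖ * |xx k| ≤ 4 / 3 * (1 / 4) :=
          mul_le_mul (norm_om_le' ht) hx (abs_nonneg _) (by norm_num)
      _ = 1 / 3 := by norm_num
  have h1 := norm_log_one_sub_inv_add_logTaylor_neg_le n (z := z) (by linarith)
  have e : Ls k t - (La (Nat.log 2 k) t +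
      ∑ r ∈ Finset.range (n + 1), om (Nat.log 2 k) t ^ r / (r : ℂ) * ((xx k ^ r : ℝ) : ℂ)) =
      log (1 - z)⁻¹ + logTaylor (n + 1) (-z) := by
    rw [neg_logTaylor]
    unfold Ls
    rw [← hz, add_sub_add_left_eq_sub, sub_eq_add_neg]
    congr 2
    apply Finset.sum_congr rfl
    intro r _
    rw [hz, mul_pow]
    push_cast
    ring
  rw [e]
  refine h1.trans ?_
  have h2 : (1 - ‖z‖)⁻¹ ≤ 3 / 2 := by
    rw [inv_le_comm₀ (by linarith) (by norm_num)]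
    norm_num
    linarith
  have h3 : ‖z‖ ^ (n + 1) ≤ (t / 2 ^ (Nat.log 2 k)) * (1 / 4) * (1 / 3) ^ n := by
    rw [pow_succ, mul_comm]
    exact mul_le_mul hz1 (pow_le_pow_left₀ (norm_nonneg _) hz2 n) (by positivity) (by positivity)
  have h4 : 0 ≤ (1 - ‖z‖)⁻¹ := inv_nonneg.2 (by linarith)
  calc ‖z‖ ^ (n + 1) * (1 - ‖z‖)⁻¹ / ((n : ℝ) + 1) ≤ ‖z‖ ^ (n + 1) * (1 - ‖z‖)⁻¹ := by
        apply div_le_self (by positivity)
        have : (0 : ℝ) ≤ n := by positivity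
        linarith
    _ ≤ (t / 2 ^ (Nat.log 2 k)) * (1 / 4) * (1 / 3) ^ n * (3 / 2) :=
        mul_le_mul h3 h2 h4 (by positivity)
    _ ≤ 2 * (t / 2 ^ (Nat.log 2 k)) * (1 / 3) ^ (n + 1) := by
        have : 0 ≤ (t / 2 ^ (Nat.log 2 k)) * (1 / 3 : ℝ) ^ n := by positivity
        rw [pow_succ]
        nlinarith

lemma Lb_approx {k : ℕ} {t : ℝ} (ht : 0 ≤ t) (hkt : t / k ≤ 1 / 2) :
    ‖Lb k t - I * (t / k : ℝ)‖ ≤ t ^ 2 * (((k : ℝ) ^ 2)⁻¹) := by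
  have h0 : 0 ≤ t / k := by positivity
  have hz : ‖I * ((t / k : ℝ) : ℂ)‖ = t / k := by
    rw [norm_mul, Complex.norm_I, one_mul, Complex.norm_real, Real.norm_eq_abs, abs_of_nonneg h0]
  have h1 := norm_log_one_sub_inv_sub_self_le (z := I * ((t / k : ℝ) : ℂ)) (by rw [hz]; linarith)
  unfold Lb
  refine h1.trans ?_
  rw [hz]
  have h2 : (1 - t / k)⁻¹ ≤ 2 := by
    rw [inv_le_comm₀ (by linarith) (by norm_num)]
    linarith
  have h3 : 0 ≤ (t / k) ^ 2 := by positivity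
  calc (t / k) ^ 2 * (1 - t / k)⁻¹ / 2 ≤ (t / k) ^ 2 * 2 / 2 := by
        apply div_le_div_of_nonneg_right _ (by norm_num)
        exact mul_le_mul_of_nonneg_left h2 h3
    _ = t ^ 2 * (((k : ℝ) ^ 2)⁻¹) := by
        rw [div_pow]
        ring

end Pool.Agent.W5h81.RF
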