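import Mathlib
import Pool.Agent.H34.L.W5h81.RF.Close

/-!
# Two chains with close moments have a nearly fair race
-/

set_option autoImplicit false

open Finset MeasureTheory Complex Set

namespace Pool.Agent.W5h81.RF

variable {ι : Type*} [DecidableEq ι] (sz : ι → ℕ)

/-- the elements of size in `[2^j, 2^(j+1))` -/
def sm (A : Finset ι) (j : ℕ) : Finset ι := A.filter (fun u => Nat.log 2 (sz u) = j)

/-- the elements of size at least `2^J` -/
def bg (A : Finset ι) (J : ℕ) : Finset ι := A.filter (fun u => J ≤ Nat.log 2 (sz u))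

/-- moments of a block -/
noncomputable def mom (A : Finset ι) (j r : ℕ) : ℝ := ∑ u ∈ sm sz A j, (xx (sz u)) ^ r

/-- sum of the inverses of the big sizes -/
noncomputable def bS (A : Finset ι) (J : ℕ) : ℝ := ∑ u ∈ bg sz A J, 1 / (sz u : ℝ)

omit [DecidableEq ι] in
lemma sum_split {M : Type*} [AddCommMonoid M] (A : Finset ι) (J : ℕ) (g : ι → M) :
    ∑ u ∈ A, g u = ∑ j ∈ Finset.range J, ∑ u ∈ sm sz A j, g u + ∑ u ∈ bg sz A J, g u := by
  classical
  rw [← Finset.sum_filter_add_sum_filter_not A (fun u => Nat.log 2 (sz u) < J)]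
  congr 1
  · rw [← Finset.sum_fiberwise_of_maps_to (s := A.filter (fun u => Nat.log 2 (sz u) < J))
      (t := Finset.range J) (g := fun u => Nat.log 2 (sz u))]
    · apply Finset.sum_congr rfl
      intro j hj
      apply Finset.sum_congr _ fun _ _ => rfl
      ext u
      rw [Finset.mem_range] at hj
      simp only [sm, Finset.mem_filter]
      constructor
      · rintro ⟨⟨h1, _⟩, h3⟩
        exact ⟨h1, h3⟩
      · rintro ⟨h1, h3⟩
        exact ⟨⟨h1, h3 ▸ hj⟩, h3⟩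
    · intro u hu
      rw [Finset.mem_filter] at hu
      exact Finset.mem_range.2 hu.2
  · apply Finset.sum_congr _ fun _ _ => rfl
    ext u
    simp [bg]

omit [DecidableEq ι] in
lemma card_sm_le {A : Finset ι} (hA : ∀ u ∈ A, 1 ≤ sz u) (hi : Set.InjOn sz A) (j : ℕ) :
    (sm sz A j).card ≤ 2 ^ j := by
  have h : ∀ u ∈ sm sz A j, sz u ∈ Finset.Ico (2 ^ j) (2 ^ (j + 1)) := by
    intro u hu
    simp only [sm, Finset.mem_filter] at hu
    have h0 := hA u hu.1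
    rw [Finset.mem_Ico, ← hu.2]
    exact ⟨Nat.pow_log_le_self 2 (by omega), Nat.lt_pow_succ_log_self (by norm_num) _⟩
  have h2 := Finset.card_le_card_of_injOn sz h (fun u hu v hv h => hi
    (by simp only [sm, Finset.coe_filter, Set.mem_ofPred_eq] at hu; exact hu.1)
    (by simp only [sm, Finset.coe_filter, Set.mem_ofPred_eq] at hv; exact hv.1) h)
  rw [Nat.card_Ico] at h2
  have : 2 ^ (j + 1) - 2 ^ j = 2 ^ j := by rw [pow_succ]; omega
  omega

omit [DecidableEq ι] in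
lemma sm_expansion {A : Finset ι} (hA : ∀ u ∈ A, 1 ≤ sz u) (hi : Set.InjOn sz A) (j : ℕ) {t : ℝ}
    (ht : 0 ≤ t) (n : ℕ) :
    ‖(∑ u ∈ sm sz A j, Ls (sz u) t) - (((sm sz A j).card : ℂ) * La j t +
      ∑ r ∈ Finset.range (n + 1), om j t ^ r / (r : ℂ) * ((mom sz A j r : ℝ) : ℂ))‖ ≤
      2 * t * (1 / 3) ^ (n + 1) := by
  have e : (∑ u ∈ sm sz A j, Ls (sz u) t) - (((sm sz A j).card : ℂ) * La j t +
      ∑ r ∈ Finset.range (n + 1), om j t ^ r / (r : ℂ) * ((mom sz A j r : ℝ) : ℂ)) =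
      ∑ u ∈ sm sz A j, (Ls (sz u) t - (La j t +
        ∑ r ∈ Finset.range (n + 1), om j t ^ r / (r : ℂ) * ((xx (sz u) ^ r : ℝ) : ℂ))) := by
    rw [Finset.sum_sub_distrib, Finset.sum_add_distrib, Finset.sum_const, nsmul_eq_mul,
      Finset.sum_comm]
    congr 2
    apply Finset.sum_congr rfl
    intro r _
    rw [← Finset.mul_sum]
    congr 1
    unfold mom
    push_cast
    rfl
  rw [e]
  refine (norm_sum_le _ _).trans ?_
  have h1 : ∀ u ∈ sm sz A j, ‖Ls (sz u) t - (La j t +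
        ∑ r ∈ Finset.range (n + 1), om j t ^ r / (r : ℂ) * ((xx (sz u) ^ r : ℝ) : ℂ))‖ ≤
        2 * (t / 2 ^ j) * (1 / 3) ^ (n + 1) := by
    intro u hu
    simp only [sm, Finset.mem_filter] at hu
    have := Ls_approx (hA u hu.1) ht n
    rw [hu.2] at this
    exact this
  refine (Finset.sum_le_card_nsmul _ _ _ h1).trans ?_
  rw [nsmul_eq_mul]
  have h2 : ((sm sz A j).card : ℝ) ≤ 2 ^ j := by exact_mod_cast card_sm_le sz hA hi j
  calc ((sm sz A j).card : ℝ) * (2 * (t / 2 ^ j) * (1 / 3) ^ (n + 1)) ≤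
      2 ^ j * (2 * (t / 2 ^ j) * (1 / 3) ^ (n + 1)) :=
        mul_le_mul_of_nonneg_right h2 (by positivity)
    _ = 2 * t * (1 / 3) ^ (n + 1) := by field_simp

omit [DecidableEq ι] in
lemma sm_diff {A B : Finset ι} (hA : ∀ u ∈ A, 1 ≤ sz u) (hB : ∀ u ∈ B, 1 ≤ sz u)
    (hiA : Set.InjOn sz A) (hiB : Set.InjOn sz B) (j : ℕ) {t δ : ℝ} (ht : 0 ≤ t) (hδ0 : 0 ≤ δ)
    (hδ : δ < 1) (n : ℕ) (hm : ∀ r ≤ n, |mom sz A j r - mom sz B j r| ≤ δ) :
    ‖(∑ u ∈ sm sz B j, Ls (sz u) t) - ∑ u ∈ sm sz A j, Ls (sz u) t‖ ≤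
      t / 2 ^ j * (2 ^ (n + 1) * δ) + 4 * t * (1 / 3) ^ (n + 1) := by
  have hA1 := sm_expansion sz hA hiA j ht n
  have hB1 := sm_expansion sz hB hiB j ht n
  have hcard : (sm sz A j).card = (sm sz B j).card := by
    have h0 := hm 0 (Nat.zero_le _)
    simp only [mom, pow_zero, Finset.sum_const, nsmul_eq_mul, mul_one] at h0
    have h1 : |((sm sz A j).card : ℤ) - (sm sz B j).card| < 1 := by
      have : |(((sm sz A j).card : ℤ) - (sm sz B j).card : ℝ)| < 1 := by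
        push_cast
        linarith
      exact_mod_cast this
    rw [abs_lt] at h1
    omega
  have hS : ‖∑ r ∈ Finset.range (n + 1), om j t ^ r / (r : ℂ) *
      ((mom sz B j r - mom sz A j r : ℝ) : ℂ)‖ ≤ t / 2 ^ j * (2 ^ (n + 1) * δ) := by
    refine (norm_sum_le _ _).trans ?_
    have h1 : ∀ r ∈ Finset.range (n + 1), ‖om j t ^ r / (r : ℂ) *
        ((mom sz B j r - mom sz A j r : ℝ) : ℂ)‖ ≤ t / 2 ^ j * δ * 2 ^ r := by
      intro r hr
      rw [Finset.mem_range] at hr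
      rcases Nat.eq_zero_or_pos r with rfl | hr0
      · simp
        positivity
      · rw [norm_mul, Complex.norm_real, Real.norm_eq_abs, abs_sub_comm, norm_div, norm_pow,
          Complex.norm_natCast]
        have h2 := hm r (by omega)
        have h3 : ‖om j t‖ ^ r / (r : ℝ) ≤ t / 2 ^ j * 2 ^ r := by
          have hr1 : (1 : ℝ) ≤ r := by exact_mod_cast hr0
          calc ‖om j t‖ ^ r / (r : ℝ) ≤ ‖om j t‖ ^ r := div_le_self (by positivity) hr1
            _ = ‖om j t‖ * ‖om j t‖ ^ (r - 1) := by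
                rw [← pow_succ', Nat.sub_add_cancel hr0]
            _ ≤ t / 2 ^ j * 2 ^ r := by
                apply mul_le_mul (norm_om_le ht) _ (by positivity) (by positivity)
                calc ‖om j t‖ ^ (r - 1) ≤ 2 ^ (r - 1) :=
                      pow_le_pow_left₀ (norm_nonneg _) ((norm_om_le' ht).trans (by norm_num)) _
                  _ ≤ 2 ^ r := pow_le_pow_right₀ (by norm_num) (by omega)
        calc ‖om j t‖ ^ r / (r : ℝ) * |mom sz A j r - mom sz B j r| ≤ t / 2 ^ j * 2 ^ r * δ :=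
              mul_le_mul h3 h2 (abs_nonneg _) (by positivity)
          _ = _ := by ring
    refine (Finset.sum_le_sum h1).trans ?_
    rw [← Finset.mul_sum]
    have h2 : ∑ r ∈ Finset.range (n + 1), (2 : ℝ) ^ r ≤ 2 ^ (n + 1) := by
      rw [geom_sum_eq (by norm_num)]
      norm_num
    calc t / 2 ^ j * δ * ∑ r ∈ Finset.range (n + 1), (2 : ℝ) ^ r ≤ t / 2 ^ j * δ * 2 ^ (n + 1) :=
          mul_le_mul_of_nonneg_left h2 (by positivity)
      _ = _ := by ring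
  rw [hcard] at hA1
  have e : (∑ u ∈ sm sz B j, Ls (sz u) t) - ∑ u ∈ sm sz A j, Ls (sz u) t =
      (((∑ u ∈ sm sz B j, Ls (sz u) t) - (((sm sz B j).card : ℂ) * La j t +
      ∑ r ∈ Finset.range (n + 1), om j t ^ r / (r : ℂ) * ((mom sz B j r : ℝ) : ℂ))) -
      ((∑ u ∈ sm sz A j, Ls (sz u) t) - (((sm sz B j).card : ℂ) * La j t +
      ∑ r ∈ Finset.range (n + 1), om j t ^ r / (r : ℂ) * ((mom sz A j r : ℝ) : ℂ)))) +
      ∑ r ∈ Finset.range (n + 1), om j t ^ r / (r : ℂ) *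
      ((mom sz B j r - mom sz A j r : ℝ) : ℂ) := by
    have h3 : ∑ r ∈ Finset.range (n + 1), om j t ^ r / (r : ℂ) *
      ((mom sz B j r - mom sz A j r : ℝ) : ℂ) =
      ∑ r ∈ Finset.range (n + 1), om j t ^ r / (r : ℂ) * ((mom sz B j r : ℝ) : ℂ) -
      ∑ r ∈ Finset.range (n + 1), om j t ^ r / (r : ℂ) * ((mom sz A j r : ℝ) : ℂ) := by
      rw [← Finset.sum_sub_distrib]
      apply Finset.sum_congr rfl
      intro r _
      push_cast
      ring
    rw [h3]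
    ring
  rw [e]
  refine (norm_add_le _ _).trans ?_
  have h4 := norm_sub_le ((∑ u ∈ sm sz B j, Ls (sz u) t) - (((sm sz B j).card : ℂ) * La j t +
      ∑ r ∈ Finset.range (n + 1), om j t ^ r / (r : ℂ) * ((mom sz B j r : ℝ) : ℂ)))
      ((∑ u ∈ sm sz A j, Ls (sz u) t) - (((sm sz B j).card : ℂ) * La j t +
      ∑ r ∈ Finset.range (n + 1), om j t ^ r / (r : ℂ) * ((mom sz A j r : ℝ) : ℂ)))
  linarith

omit [DecidableEq ι] in
lemma sum_inv_sq_bg {A : Finset ι} (hi : Set.InjOn sz A) (hA : ∀ u ∈ A, 1 ≤ sz u) (J : ℕ) :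
    ∑ u ∈ bg sz A J, (((sz u : ℝ) ^ 2)⁻¹) ≤ 2 / 2 ^ J := by
  classical
  have hi' : Set.InjOn sz (bg sz A J) := by
    intro u hu v hv h
    simp only [bg, Finset.coe_filter, Set.mem_ofPred_eq] at hu hv
    exact hi hu.1 hv.1 h
  have e : ∑ u ∈ bg sz A J, (((sz u : ℝ) ^ 2)⁻¹) =
      ∑ k ∈ (bg sz A J).image sz, (((k : ℕ) : ℝ) ^ 2)⁻¹ := by
    rw [Finset.sum_image hi']
  rw [e]
  obtain ⟨n, hn⟩ : ∃ n, ∀ k ∈ (bg sz A J).image sz, k < n :=
    ⟨((bg sz A J).image sz).sup id + 1, fun k hk => Nat.lt_succ_of_le (Finset.le_sup (f := id) hk)⟩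
  have h1 : (bg sz A J).image sz ⊆ Finset.Ioo (2 ^ J - 1) n := by
    intro k hk
    have h2 := hn k hk
    rw [Finset.mem_image] at hk
    obtain ⟨u, hu, rfl⟩ := hk
    simp only [bg, Finset.mem_filter] at hu
    rw [Finset.mem_Ioo]
    refine ⟨?_, h2⟩
    have h3 : 2 ^ J ≤ sz u := by
      calc 2 ^ J ≤ 2 ^ (Nat.log 2 (sz u)) := Nat.pow_le_pow_right (by norm_num) hu.2
        _ ≤ sz u := Nat.pow_log_le_self 2 (by have := hA u hu.1; omega)
    have : 0 < 2 ^ J := by positivity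
    omega
  refine (Finset.sum_le_sum_of_subset_of_nonneg h1 fun _ _ _ => by positivity).trans ?_
  refine (sum_Ioo_inv_sq_le (2 ^ J - 1) n).trans (le_of_eq ?_)
  have h3 : 1 ≤ 2 ^ J := Nat.one_le_two_pow
  push_cast [Nat.cast_sub h3]
  norm_num

omit [DecidableEq ι] in
lemma bg_expansion {A : Finset ι} (hA : ∀ u ∈ A, 1 ≤ sz u) (hi : Set.InjOn sz A) (J : ℕ) {t : ℝ}
    (ht : 0 ≤ t) (htJ : t ≤ 2 ^ J / 2) :
    ‖(∑ u ∈ bg sz A J, Lb (sz u) t) - I * (t * bS sz A J : ℝ)‖ ≤ t ^ 2 * (2 / 2 ^ J) := by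
  have e : (∑ u ∈ bg sz A J, Lb (sz u) t) - I * (t * bS sz A J : ℝ) =
      ∑ u ∈ bg sz A J, (Lb (sz u) t - I * (t / sz u : ℝ)) := by
    rw [Finset.sum_sub_distrib]
    congr 1
    unfold bS
    push_cast
    rw [Finset.mul_sum, Finset.mul_sum]
    apply Finset.sum_congr rfl
    intro u _
    ring
  rw [e]
  refine (norm_sum_le _ _).trans ?_
  have h1 : ∀ u ∈ bg sz A J, ‖Lb (sz u) t - I * (t / sz u : ℝ)‖ ≤ t ^ 2 * (((sz u : ℝ) ^ 2)⁻¹) := by
    intro u hu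
    simp only [bg, Finset.mem_filter] at hu
    apply Lb_approx ht
    have h3 : 2 ^ J ≤ sz u := by
      calc 2 ^ J ≤ 2 ^ (Nat.log 2 (sz u)) := Nat.pow_le_pow_right (by norm_num) hu.2
        _ ≤ sz u := Nat.pow_log_le_self 2 (by have := hA u hu.1; omega)
    have h4 : (2 : ℝ) ^ J ≤ sz u := by exact_mod_cast h3
    have h5 : (0 : ℝ) < sz u := by exact_mod_cast hA u hu.1
    rw [div_le_iff₀ h5]
    linarith
  refine (Finset.sum_le_sum h1).trans ?_
  rw [← Finset.mul_sum]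
  exact mul_le_mul_of_nonneg_left (sum_inv_sq_bg sz hi hA J) (by positivity)

/-- exponent -/
noncomputable def LL (J k : ℕ) (t : ℝ) : ℂ := if Nat.log 2 k < J then Ls k t else Lb k t

lemma exp_LL {J k : ℕ} (hk : 1 ≤ k) (t : ℝ) : exp (LL J k t) = ph k t := by
  unfold LL
  split_ifs
  · exact exp_Ls hk t
  · exact exp_Lb k t

omit [DecidableEq ι] in
lemma Ph_eq_exp {A : Finset ι} (hA : ∀ u ∈ A, 1 ≤ sz u) (J : ℕ) (t : ℝ) :
    Ph (fun u => (sz u : ℝ)) A t = exp (∑ u ∈ A, LL J (sz u) t) := by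
  unfold Ph
  rw [exp_sum]
  apply Finset.prod_congr rfl
  intro u hu
  exact (exp_LL (hA u hu) t).symm

omit [DecidableEq ι] in
lemma sum_LL (A : Finset ι) (J : ℕ) (t : ℝ) :
    ∑ u ∈ A, LL J (sz u) t = ∑ j ∈ Finset.range J, ∑ u ∈ sm sz A j, Ls (sz u) t +
      ∑ u ∈ bg sz A J, Lb (sz u) t := by
  rw [sum_split sz A J]
  congr 1
  · apply Finset.sum_congr rfl
    intro j hj
    rw [Finset.mem_range] at hj
    apply Finset.sum_congr rfl
    intro u hu
    simp only [sm, Finset.mem_filter] at hu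
    unfold LL
    rw [if_pos (hu.2 ▸ hj)]
  · apply Finset.sum_congr rfl
    intro u hu
    simp only [bg, Finset.mem_filter] at hu
    unfold LL
    rw [if_neg (not_lt.2 hu.2)]

omit [DecidableEq ι] in
lemma eta_bound {A B : Finset ι} (hA : ∀ u ∈ A, 1 ≤ sz u) (hB : ∀ u ∈ B, 1 ≤ sz u)
    (hiA : Set.InjOn sz A) (hiB : Set.InjOn sz B) (J n : ℕ) {δ ε : ℝ} (hδ0 : 0 ≤ δ) (hδ : δ < 1)
    (hε0 : 0 < ε) (hε1 : ε ≤ 1) (hJ : 4 / ε ^ 2 ≤ 2 ^ J)
    (hm : ∀ j < J, ∀ r ≤ n, |mom sz A j r - mom sz B j r| ≤ δ)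
    (hb : |bS sz A J - bS sz B J| ≤ ε)
    (hs : 2 * (2 ^ (n + 1) * δ) + J * (4 * (1 / 3) ^ (n + 1)) ≤ ε) {t : ℝ} (ht : 0 ≤ t)
    (htT : t ≤ 1 / (3 * ε)) :
    ‖(∑ u ∈ B, LL J (sz u) t) - ∑ u ∈ A, LL J (sz u) t‖ ≤ 3 * ε * t := by
  have htε : t * ε ≤ 1 / 3 := by
    calc t * ε ≤ 1 / (3 * ε) * ε := mul_le_mul_of_nonneg_right htT hε0.le
      _ = 1 / 3 := by field_simp
  have h2J : (0 : ℝ) < 2 ^ J := by positivity
  have hJ' : 4 ≤ 2 ^ J * ε ^ 2 := by
    rw [div_le_iff₀ (by positivity)] at hJ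
    exact hJ
  have htJ : t ≤ 2 ^ J / 2 := by
    have h1 : 1 / (3 * ε) ≤ 2 ^ J / 2 := by
      rw [div_le_div_iff₀ (by positivity) (by norm_num)]
      have h2 : (2 : ℝ) ^ J * ε ^ 2 ≤ 2 ^ J * ε := by
        apply mul_le_mul_of_nonneg_left _ h2J.le
        nlinarith
      nlinarith
    exact htT.trans h1
  rw [sum_LL, sum_LL]
  have e : (∑ j ∈ Finset.range J, ∑ u ∈ sm sz B j, Ls (sz u) t + ∑ u ∈ bg sz B J, Lb (sz u) t) -
      (∑ j ∈ Finset.range J, ∑ u ∈ sm sz A j, Ls (sz u) t + ∑ u ∈ bg sz A J, Lb (sz u) t) =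
      (∑ j ∈ Finset.range J, ((∑ u ∈ sm sz B j, Ls (sz u) t) - ∑ u ∈ sm sz A j, Ls (sz u) t)) +
      (((∑ u ∈ bg sz B J, Lb (sz u) t) - I * (t * bS sz B J : ℝ)) -
        ((∑ u ∈ bg sz A J, Lb (sz u) t) - I * (t * bS sz A J : ℝ)) +
        I * (t * (bS sz B J - bS sz A J) : ℝ)) := by
    rw [Finset.sum_sub_distrib]
    push_cast
    ring
  rw [e]
  have h1 : ‖∑ j ∈ Finset.range J, ((∑ u ∈ sm sz B j, Ls (sz u) t) - ∑ u ∈ sm sz A j, Ls (sz u) t)‖
      ≤ t * ε := by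
    refine (norm_sum_le _ _).trans ?_
    refine (Finset.sum_le_sum fun j hj => sm_diff sz hA hB hiA hiB j ht hδ0 hδ n
      (hm j (Finset.mem_range.1 hj))).trans ?_
    rw [Finset.sum_add_distrib, Finset.sum_const, Finset.card_range, nsmul_eq_mul,
      ← Finset.sum_mul]
    have h3 : ∑ j ∈ Finset.range J, t / 2 ^ j ≤ t * 2 := by
      have h4 : ∑ j ∈ Finset.range J, t / 2 ^ j = t * ∑ j ∈ Finset.range J, ((1 : ℝ) / 2) ^ j := by
        rw [Finset.mul_sum]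
        apply Finset.sum_congr rfl
        intro j _
        rw [one_div, inv_pow]
        rfl
      rw [h4]
      apply mul_le_mul_of_nonneg_left _ ht
      rw [geom_sum_eq (by norm_num)]
      have h5 : (0 : ℝ) < (1 / 2) ^ J := by positivity
      rw [div_le_iff_of_neg (by norm_num)]
      linarith
    have h4 : (∑ j ∈ Finset.range J, t / 2 ^ j) * (2 ^ (n + 1) * δ) ≤ t * 2 * (2 ^ (n + 1) * δ) :=
      mul_le_mul_of_nonneg_right h3 (by positivity)
    have h5 := mul_le_mul_of_nonneg_left hs ht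
    linarith
  have h2 := bg_expansion sz hB hiB J ht htJ
  have h3 := bg_expansion sz hA hiA J ht htJ
  have h4 : ‖(I * (t * (bS sz B J - bS sz A J) : ℝ) : ℂ)‖ ≤ t * ε := by
    rw [norm_mul, Complex.norm_I, one_mul, Complex.norm_real, Real.norm_eq_abs, abs_mul,
      abs_of_nonneg ht, abs_sub_comm]
    exact mul_le_mul_of_nonneg_left hb ht
  have h5 : 2 * (t ^ 2 * (2 / 2 ^ J)) ≤ t * ε := by
    have h6 : 2 * (t ^ 2 * (2 / 2 ^ J)) = t * (4 * t / 2 ^ J) := by ring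
    rw [h6]
    apply mul_le_mul_of_nonneg_left _ ht
    rw [div_le_iff₀ h2J]
    have h7 : 4 * t * ε ≤ ε * 2 ^ J * ε := by
      nlinarith
    exact le_of_mul_le_mul_right h7 hε0
  have h6 := norm_add_le (∑ j ∈ Finset.range J, ((∑ u ∈ sm sz B j, Ls (sz u) t) -
    ∑ u ∈ sm sz A j, Ls (sz u) t)) (((∑ u ∈ bg sz B J, Lb (sz u) t) - I * (t * bS sz B J : ℝ)) -
        ((∑ u ∈ bg sz A J, Lb (sz u) t) - I * (t * bS sz A J : ℝ)) +
        I * (t * (bS sz B J - bS sz A J) : ℝ))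
  have h7 := norm_add_le (((∑ u ∈ bg sz B J, Lb (sz u) t) - I * (t * bS sz B J : ℝ)) -
        ((∑ u ∈ bg sz A J, Lb (sz u) t) - I * (t * bS sz A J : ℝ)))
        (I * (t * (bS sz B J - bS sz A J) : ℝ))
  have h8 := norm_sub_le ((∑ u ∈ bg sz B J, Lb (sz u) t) - I * (t * bS sz B J : ℝ))
        ((∑ u ∈ bg sz A J, Lb (sz u) t) - I * (t * bS sz A J : ℝ))
  linarith

lemma norm_Ph_mul {s : ι → ℝ} {A B : Finset ι} {a b : ι} (ha : a ∈ A) (hb : b ∈ B) (ha1 : s a = 1)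
    (hb1 : s b = 1) (t : ℝ) : ‖Ph s A t‖ * ‖Ph s B t‖ ≤ (1 + t ^ 2)⁻¹ := by
  have h1 := norm_Ph_le_mem s ha t
  have h2 := norm_Ph_le_mem s hb t
  rw [ha1] at h1
  rw [hb1] at h2
  have h3 := norm_ph_sq 1 t
  rw [div_one] at h3
  rw [← h3, sq]
  exact mul_le_mul h1 h2 (norm_nonneg _) (norm_nonneg _)

/-- **Closeness lemma.** -/
theorem close {A B : Finset ι} (hA : ∀ u ∈ A, 1 ≤ sz u) (hB : ∀ u ∈ B, 1 ≤ sz u)
    (hiA : Set.InjOn sz A) (hiB : Set.InjOn sz B) {a b : ι} (ha : a ∈ A) (hb : b ∈ B)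
    (ha1 : sz a = 1) (hb1 : sz b = 1) (J n : ℕ) {δ ε : ℝ} (hδ0 : 0 ≤ δ) (hδ : δ < 1)
    (hε0 : 0 < ε) (hε1 : ε ≤ 1) (hJ : 4 / ε ^ 2 ≤ 2 ^ J)
    (hm : ∀ j < J, ∀ r ≤ n, |mom sz A j r - mom sz B j r| ≤ δ)
    (hbS : |bS sz A J - bS sz B J| ≤ ε)
    (hs : 2 * (2 ^ (n + 1) * δ) + J * (4 * (1 / 3) ^ (n + 1)) ≤ ε) :
    |F (fun u => (sz u : ℝ)) A B - 1 / 2| ≤ 3 * ε := by
  have hA' : ∀ u ∈ A, (0 : ℝ) < (fun u => (sz u : ℝ)) u := fun u hu => by
    have := hA u hu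
    show (0 : ℝ) < sz u
    exact_mod_cast this
  have hB' : ∀ u ∈ B, (0 : ℝ) < (fun u => (sz u : ℝ)) u := fun u hu => by
    have := hB u hu
    show (0 : ℝ) < sz u
    exact_mod_cast this
  have ha1' : (fun u => (sz u : ℝ)) a = 1 := by simp [ha1]
  have hb1' : (fun u => (sz u : ℝ)) b = 1 := by simp [hb1]
  have hpt : ∀ t ∈ Ioi (0 : ℝ), ‖ig (fun u => (sz u : ℝ)) A B t‖ ≤ 6 * ε * (1 + t ^ 2)⁻¹ := by
    intro t ht
    have ht0 : (0 : ℝ) < t := ht
    have hnm := norm_Ph_mul (s := fun u => (sz u : ℝ)) ha hb ha1' hb1' t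
    rw [Real.norm_eq_abs]
    unfold ig
    rw [abs_div, abs_of_pos ht0, div_le_iff₀ ht0]
    have hpos : (0 : ℝ) < (1 + t ^ 2)⁻¹ := by positivity
    rcases le_total t (1 / (3 * ε)) with hT | hT
    · have hη := eta_bound sz hA hB hiA hiB J n hδ0 hδ hε0 hε1 hJ hm hbS hs ht0.le hT
      set η := (∑ u ∈ B, LL J (sz u) t) - ∑ u ∈ A, LL J (sz u) t with hηdef
      have hη1 : ‖η‖ ≤ 1 := by
        refine hη.trans ?_
        calc 3 * ε * t ≤ 3 * ε * (1 / (3 * ε)) := by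
              apply mul_le_mul_of_nonneg_left hT (by positivity)
          _ = 1 := by field_simp
      have hAB : Ph (fun u => (sz u : ℝ)) B t = Ph (fun u => (sz u : ℝ)) A t * exp η := by
        rw [Ph_eq_exp sz hA J t, Ph_eq_exp sz hB J t, ← exp_add, hηdef]
        congr 1
        ring
      have h1 : (Ph (fun u => (sz u : ℝ)) B t * (starRingEnd ℂ) (Ph (fun u => (sz u : ℝ)) A t)).im =
          Complex.normSq (Ph (fun u => (sz u : ℝ)) A t) * (exp η - 1).im := by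
        have h2 : Ph (fun u => (sz u : ℝ)) B t * (starRingEnd ℂ) (Ph (fun u => (sz u : ℝ)) A t) =
            ((Complex.normSq (Ph (fun u => (sz u : ℝ)) A t) : ℝ) : ℂ) * exp η := by
          rw [hAB, Complex.normSq_eq_conj_mul_self]
          ring
        rw [h2, Complex.im_ofReal_mul, Complex.sub_im, Complex.one_im, sub_zero]
      rw [h1, abs_mul, abs_of_nonneg (Complex.normSq_nonneg _)]
      have h3 : Complex.normSq (Ph (fun u => (sz u : ℝ)) A t) ≤ (1 + t ^ 2)⁻¹ := by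
        have h4 := norm_Ph_mul (s := fun u => (sz u : ℝ)) ha ha ha1' ha1' t
        rw [Complex.normSq_eq_norm_sq, sq]
        exact h4
      have h4 : |(exp η - 1).im| ≤ 2 * (3 * ε * t) :=
        (Complex.abs_im_le_norm _).trans ((norm_exp_sub_one_le hη1).trans (by linarith))
      calc Complex.normSq (Ph (fun u => (sz u : ℝ)) A t) * |(exp η - 1).im| ≤
          (1 + t ^ 2)⁻¹ * (2 * (3 * ε * t)) := mul_le_mul h3 h4 (abs_nonneg _) hpos.le
        _ = _ := by ring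
    · have h1 : |(Ph (fun u => (sz u : ℝ)) B t *
          (starRingEnd ℂ) (Ph (fun u => (sz u : ℝ)) A t)).im| ≤ (1 + t ^ 2)⁻¹ := by
        refine (Complex.abs_im_le_norm _).trans ?_
        rw [norm_mul, RCLike.norm_conj, mul_comm]
        exact hnm
      refine h1.trans ?_
      have h2 : 1 ≤ 3 * ε * t := by
        rw [div_le_iff₀ (by positivity)] at hT
        linarith
      nlinarith
  have hint : IntegrableOn (fun t : ℝ => 6 * ε * (1 + t ^ 2)⁻¹) (Ioi (0 : ℝ)) :=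
    (integrable_inv_one_add_sq.const_mul _).integrableOn
  have h1 := norm_integral_le_of_norm_le (f := ig (fun u => (sz u : ℝ)) A B) hint
    (by filter_upwards [ae_restrict_mem measurableSet_Ioi] with t ht using hpt t ht)
  have h2 : ∫ t in Ioi (0 : ℝ), 6 * ε * (1 + t ^ 2)⁻¹ = 6 * ε * (Real.pi / 2) := by
    rw [integral_const_mul, integral_Ioi_inv_one_add_sq]
    simp
  rw [h2, Real.norm_eq_abs] at h1
  unfold F
  rw [add_sub_cancel_left, abs_div, abs_of_pos Real.pi_pos, div_le_iff₀ Real.pi_pos]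
  calc |∫ t in Ioi (0 : ℝ), ig (fun u => (sz u : ℝ)) A B t| ≤ 6 * ε * (Real.pi / 2) := h1
    _ = 3 * ε * Real.pi := by ring

end Pool.Agent.W5h81.RF
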