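import Mathlib
import Pool.Agent.H34.L.W5h81.RF.Main
import Pool.Agent.H34.L.W5h81.RF.Close3

/-!
# Forests with many leaves have a nearly balanced pair: the quasi-polynomial bound
-/

set_option autoImplicit false

open Finset

namespace Pool.Agent.W5h81.RF

open Pool.Agent.H13R3.WB

/-! ### sets of small numbers -/

/-- the sets of at most `N` positive numbers smaller than `2 ^ N` -/
def LowSets (N : ℕ) : Finset (Finset ℕ) :=
  (univ : Finset (Fin N → Fin (2 ^ N))).image (fun f => (univ.image (fun i => ((f i : Fin (2 ^ N)) : ℕ))).erase 0)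

lemma card_LowSets (N : ℕ) : (LowSets N).card ≤ 2 ^ (N * N) := by
  refine Finset.card_image_le.trans (le_of_eq ?_)
  rw [Finset.card_univ, Fintype.card_fun, Fintype.card_fin, Fintype.card_fin, ← pow_mul]

lemma mem_LowSets {N : ℕ} {S : Finset ℕ} (h1 : S.card ≤ N) (h2 : ∀ s ∈ S, 1 ≤ s ∧ s < 2 ^ N) :
    S ∈ LowSets N := by
  unfold LowSets
  rw [Finset.mem_image]
  have h0 : 0 < 2 ^ N := by positivity
  refine ⟨fun i => if h : (i : ℕ) < S.card then ⟨(S.equivFin.symm ⟨i, h⟩ : ℕ),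
    (h2 _ (S.equivFin.symm ⟨i, h⟩).2).2⟩ else ⟨0, h0⟩, Finset.mem_univ _, ?_⟩
  ext s
  rw [Finset.mem_erase, Finset.mem_image]
  constructor
  · rintro ⟨hs, i, -, hi⟩
    by_cases h : (i : ℕ) < S.card
    · simp only [h, dite_true] at hi
      rw [← hi]
      exact (S.equivFin.symm ⟨i, h⟩).2
    · simp only [h, dite_false] at hi
      exact absurd hi.symm hs
  · intro hs
    refine ⟨by have := (h2 s hs).1; omega, ?_⟩
    have h3 := (S.equivFin ⟨s, hs⟩).2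
    refine ⟨⟨(S.equivFin ⟨s, hs⟩ : ℕ), by omega⟩, Finset.mem_univ _, ?_⟩
    simp only [h3, dite_true]
    simp

variable {P : Type} [Fintype P] [PartialOrder P] [DecidableEq P] [DecidableRel (α := P) (· ≤ ·)]

omit [DecidableEq P] in
lemma injOn_Dn (hP : Forest P) (x : P) : Set.InjOn (sz : P → ℕ) (Dn x) := by
  intro u hu v hv h
  rw [Finset.mem_coe, mem_Dn] at hu hv
  exact injOn_sz hP x hu hv h

omit [DecidableEq P] in
lemma abs_mom_le (hi : ∀ x : P, Set.InjOn (sz : P → ℕ) (Dn x)) (x : P) (j r : ℕ) :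
    |mom sz (Dn x) j r| ≤ 2 ^ j := by
  unfold mom
  refine (Finset.abs_sum_le_sum_abs _ _).trans ?_
  have h1 : ∀ u ∈ sm sz (Dn x) j, |xx (sz u) ^ r| ≤ 1 := by
    intro u _
    rw [abs_pow]
    exact pow_le_one₀ (abs_nonneg _) ((abs_xx (one_le_sz u)).trans (by norm_num))
  refine (Finset.sum_le_card_nsmul _ _ _ h1).trans ?_
  rw [nsmul_eq_mul, mul_one]
  exact_mod_cast card_sm_le sz (fun u _ => one_le_sz u) (hi x) j

omit [DecidableEq P] in
lemma hps_nonneg (x : P) (e r : ℕ) : 0 ≤ hps sz (Dn x) e r :=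
  Finset.sum_nonneg fun _ _ => by positivity

omit [DecidableEq P] in
lemma hps_le (hi : ∀ x : P, Set.InjOn (sz : P → ℕ) (Dn x)) (x : P) (e : ℕ) {r : ℕ} (hr : 2 ≤ r) :
    hps sz (Dn x) e r ≤ 2 ^ (e + 2) := by
  unfold hps
  have h1 : ∀ u ∈ bg sz (Dn x) (e + 3), ((2 : ℝ) ^ (e + 2) / sz u) ^ r ≤
      (2 ^ (e + 2)) ^ 2 * (((sz u : ℝ) ^ 2)⁻¹) := by
    intro u hu
    have h2 : ((2 ^ (e + 3) : ℕ) : ℝ) ≤ sz u := by
      exact_mod_cast two_pow_le_of_mem_bg sz (fun u _ => one_le_sz u) hu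
    have h3 : (0 : ℝ) < sz u := lt_of_lt_of_le (by positivity) h2
    have h4 : (2 : ℝ) ^ (e + 2) / sz u ≤ 1 := by
      rw [div_le_one h3]
      push_cast at h2
      rw [pow_succ] at h2
      have : (0 : ℝ) < 2 ^ (e + 2) := by positivity
      linarith
    calc ((2 : ℝ) ^ (e + 2) / sz u) ^ r ≤ ((2 : ℝ) ^ (e + 2) / sz u) ^ 2 :=
          pow_le_pow_of_le_one (by positivity) h4 hr
      _ = _ := by rw [div_pow]; rfl
  refine (Finset.sum_le_sum h1).trans ?_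
  rw [← Finset.mul_sum]
  refine (mul_le_mul_of_nonneg_left (sum_inv_sq_bg sz (hi x) (fun u _ => one_le_sz u) (e + 3))
    (by positivity)).trans (le_of_eq ?_)
  rw [show e + 3 = e + 2 + 1 by ring, pow_succ 2 (e + 2)]
  field_simp

omit [DecidableEq P] in
lemma hps_one (x : P) (e : ℕ) : hps sz (Dn x) e 1 = 2 ^ (e + 2) * bS sz (Dn x) (e + 3) := by
  unfold hps bS
  rw [Finset.mul_sum]
  apply Finset.sum_congr rfl
  intro u _
  ring

omit [DecidableEq P] in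
lemma bS_mono (x : P) {J J' : ℕ} (h : J ≤ J') : bS sz (Dn x) J' ≤ bS sz (Dn x) J := by
  unfold bS
  apply Finset.sum_le_sum_of_subset_of_nonneg
  · intro u hu
    simp only [bg, Finset.mem_filter] at hu ⊢
    exact ⟨hu.1, h.trans hu.2⟩
  · intro u _ _
    positivity

omit [DecidableEq P] in
lemma bS_le (hi : ∀ x : P, Set.InjOn (sz : P → ℕ) (Dn x)) (x : P) (J J' : ℕ) :
    bS sz (Dn x) J ≤ bS sz (Dn x) J' + 2 ^ J' := by
  refine le_trans ?_ (sum_small_le (hi x) J')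
  unfold bS
  apply Finset.sum_le_sum_of_subset_of_nonneg
  · intro u hu
    simp only [bg, Finset.mem_filter] at hu
    exact hu.1
  · intro u _ _
    positivity

omit [DecidableEq P] in
/-- the parameter of a leaf -/
lemma exists_e {x : P} (hx : ∀ v, x ≤ v → v = x) {N : ℕ} (hN : 1 ≤ N) :
    ∃ e, e + 1 ≤ N ∧ N ≤ ∑ u ∈ Dn x, (e + 1 - Nat.log 2 (sz u)) ∧
      ∑ u ∈ Dn x, (e - Nat.log 2 (sz u)) < N := by
  have hmem : x ∈ Dn x := mem_Dn.2 le_rfl
  have h1 : ∃ c, N ≤ ∑ u ∈ Dn x, (c - Nat.log 2 (sz u)) := by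
    refine ⟨N, ?_⟩
    have := Finset.single_le_sum (f := fun u : P => N - Nat.log 2 (sz u))
      (fun _ _ => Nat.zero_le _) hmem
    simpa [sz_max hx] using this
  have h2 := Nat.find_spec h1
  have h3 : Nat.find h1 ≤ N := by
    apply Nat.find_min'
    have := Finset.single_le_sum (f := fun u : P => N - Nat.log 2 (sz u))
      (fun _ _ => Nat.zero_le _) hmem
    simpa [sz_max hx] using this
  have h4 : Nat.find h1 ≠ 0 := by
    intro h
    rw [h] at h2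
    simp at h2
    omega
  obtain ⟨e, he⟩ : ∃ e, Nat.find h1 = e + 1 := ⟨Nat.find h1 - 1, by omega⟩
  refine ⟨e, by omega, he ▸ h2, ?_⟩
  have h5 := Nat.find_min h1 (m := e) (by omega)
  exact not_le.1 h5

/-- the set of the small sizes of a leaf -/
noncomputable def lowS (x : P) (e : ℕ) : Finset ℕ :=
  ((Dn x).filter (fun u => Nat.log 2 (sz u) < e)).image sz

omit [DecidableEq P] in
lemma lowS_mem {x : P} {N e : ℕ} (he : e + 1 ≤ N) (h : ∑ u ∈ Dn x, (e - Nat.log 2 (sz u)) < N) :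
    lowS x e ∈ LowSets N := by
  apply mem_LowSets
  · refine Finset.card_image_le.trans (le_trans ?_ h.le)
    rw [Finset.card_eq_sum_ones, Finset.sum_filter]
    apply Finset.sum_le_sum
    intro u _
    split_ifs with h1
    · omega
    · exact Nat.zero_le _
  · intro s hs
    unfold lowS at hs
    rw [Finset.mem_image] at hs
    obtain ⟨u, hu, rfl⟩ := hs
    rw [Finset.mem_filter] at hu
    refine ⟨one_le_sz u, ?_⟩
    calc sz u < 2 ^ e := Nat.lt_pow_of_log_lt (by norm_num) hu.2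
      _ ≤ 2 ^ N := Nat.pow_le_pow_right (by norm_num) (by omega)

/-- selection of a family of leaves without common small ancestors -/
lemma select (hP : Forest P) (Lv : Finset P) (hLv : ∀ x ∈ Lv, ∀ v, x ≤ v → v = x) (J : ℕ)
    (hJ : 1 ≤ J) : ∃ S ⊆ Lv, Lv.card ≤ 2 ^ J * S.card ∧
      ∀ x ∈ S, ∀ y ∈ S, x ≠ y → ∀ u, u ≤ x → u ≤ y → 2 ^ J ≤ sz u := by
  classical
  have h2J : 2 ≤ 2 ^ J := by
    calc 2 = 2 ^ 1 := by norm_num
      _ ≤ 2 ^ J := Nat.pow_le_pow_right (by norm_num) hJ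
  have hex : ∀ x : P, x ∈ Lv → ∃ q, q ≤ x ∧ sz q < 2 ^ J ∧ ∀ u, u ≤ x → sz u < 2 ^ J → q ≤ u := by
    intro x hx
    have hne : ((Dn x).filter (fun u => sz u < 2 ^ J)).Nonempty := by
      refine ⟨x, Finset.mem_filter.2 ⟨mem_Dn.2 le_rfl, ?_⟩⟩
      rw [sz_max (hLv x hx)]
      omega
    obtain ⟨q, hq⟩ := ((Dn x).filter (fun u => sz u < 2 ^ J)).exists_minimal hne
    have h1 := hq.1
    simp only [Finset.mem_filter, mem_Dn] at h1
    refine ⟨q, h1.1, h1.2, fun u hu hu2 => ?_⟩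
    rcases hP x q u h1.1 hu with h | h
    · exact h
    · exact hq.2 (Finset.mem_filter.2 ⟨mem_Dn.2 hu, hu2⟩) h
  have hex' : ∀ x : P, ∃ q, x ∈ Lv → q ≤ x ∧ sz q < 2 ^ J ∧ ∀ u, u ≤ x → sz u < 2 ^ J → q ≤ u := by
    intro x
    by_cases hx : x ∈ Lv
    · obtain ⟨q, hq⟩ := hex x hx
      exact ⟨q, fun _ => hq⟩
    · exact ⟨x, fun h => absurd h hx⟩
  choose ρ hρ using hex'
  have hR : ∀ r : P, ∃ g, r ∈ Lv.image ρ → g ∈ Lv ∧ ρ g = r := by
    intro r
    by_cases hr : r ∈ Lv.image ρ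
    · obtain ⟨g, hg1, hg2⟩ := Finset.mem_image.1 hr
      exact ⟨g, fun _ => ⟨hg1, hg2⟩⟩
    · exact ⟨r, fun h => absurd h hr⟩
  choose g hg using hR
  refine ⟨(Lv.image ρ).image g, ?_, ?_, ?_⟩
  · intro x hx
    obtain ⟨r, hr, rfl⟩ := Finset.mem_image.1 hx
    exact (hg r hr).1
  · have h1 : ((Lv.image ρ).image g).card = (Lv.image ρ).card := by
      apply Finset.card_image_of_injOn
      intro r hr r' hr' h
      rw [← (hg r hr).2, ← (hg r' hr').2, h]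
    rw [h1]
    apply Finset.card_le_mul_card_image
    intro r hr
    obtain ⟨x, hx, rfl⟩ := Finset.mem_image.1 hr
    have h2 : Lv.filter (fun y => ρ y = ρ x) ⊆ univ.filter (fun v => ρ x ≤ v) := by
      intro y hy
      rw [Finset.mem_filter] at hy ⊢
      exact ⟨Finset.mem_univ _, hy.2 ▸ (hρ y hy.1).1⟩
    refine (Finset.card_le_card h2).trans ?_
    have h3 := (hρ x hx).2.1
    unfold sz at h3
    convert h3.le
  · intro x hx y hy hxy u hux huy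
    obtain ⟨r, hr, rfl⟩ := Finset.mem_image.1 hx
    obtain ⟨r', hr', rfl⟩ := Finset.mem_image.1 hy
    by_contra hu
    rw [not_le] at hu
    obtain ⟨hgr, hr2⟩ := hg r hr
    obtain ⟨hgr', hr2'⟩ := hg r' hr'
    have a1 := (hρ _ hgr).2.2 u hux hu
    have a2 := (hρ _ hgr').2.2 u huy hu
    have b1 := (hρ _ hgr').2.2 (ρ (g r)) (a1.trans huy) (hρ _ hgr).2.1
    have b2 := (hρ _ hgr).2.2 (ρ (g r')) (a2.trans hux) (hρ _ hgr').2.1
    have h3 := le_antisymm b2 b1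
    rw [hr2, hr2'] at h3
    exact hxy (by rw [h3])

lemma hps_sub (x y : P) (e r : ℕ) :
    hps sz (Dn x) e r - hps sz (Dn y) e r = hps sz (Ax ∅ x y) e r - hps sz (Ax ∅ y x) e r := by
  have h : ∀ A : Finset P, hps sz A e r =
      ∑ u ∈ A, if e + 3 ≤ Nat.log 2 (sz u) then ((2 : ℝ) ^ (e + 2) / sz u) ^ r else 0 := by
    intro A
    unfold hps bg
    rw [Finset.sum_filter]
  rw [h, h, h, h]
  exact sum_Dn_sub x y _

lemma sm_Ax {x y : P} {J j : ℕ} (hJ : ∀ u : P, u ≤ x → u ≤ y → 2 ^ J ≤ sz u) (hj : j < J) :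
    sm sz (Ax ∅ x y) j = sm sz (Dn x) j := by
  ext u
  simp only [sm, Finset.mem_filter, mem_Ax0, mem_Dn]
  constructor
  · rintro ⟨⟨h1, _⟩, h2⟩
    exact ⟨h1, h2⟩
  · rintro ⟨h1, h2⟩
    refine ⟨⟨h1, fun h3 => ?_⟩, h2⟩
    have h4 := hJ u h1 h3
    have h5 : J ≤ Nat.log 2 (sz u) := (Nat.le_log_iff_pow_le (by norm_num)
      (by have := one_le_sz u; omega)).2 h4
    omega

omit [DecidableEq P] in
lemma sm_image {x : P} {e j : ℕ} (hj : j < e) :
    (sm sz (Dn x) j).image sz = (lowS x e).filter (fun k => Nat.log 2 k = j) := by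
  ext k
  unfold lowS
  simp only [sm, Finset.mem_image, Finset.mem_filter, mem_Dn]
  constructor
  · rintro ⟨u, ⟨h1, h2⟩, rfl⟩
    exact ⟨⟨u, ⟨h1, h2 ▸ hj⟩, rfl⟩, h2⟩
  · rintro ⟨⟨u, ⟨h1, _⟩, rfl⟩, h3⟩
    exact ⟨u, ⟨h1, h3⟩, rfl⟩

/-- **two leaves with the same code** -/
theorem caseA2 (hP : Forest P) {x y : P} (hx : ∀ v, x ≤ v → v = x) (hy : ∀ v, y ≤ v → v = y)
    (hne : x ≠ y) {J e n N : ℕ} (hJ : ∀ u : P, u ≤ x → u ≤ y → 2 ^ J ≤ sz u) (heJ : e + 3 ≤ J)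
    (heN : e + 1 ≤ N) (hn : 1 ≤ n) {δ : ℝ} (hδ : δ < 1) (hlow : lowS x e = lowS y e)
    (hm : ∀ j, e ≤ j → j < e + 3 → ∀ r ≤ n, |mom sz (Dn x) j r - mom sz (Dn y) j r| ≤ δ)
    (hp : ∀ r, 1 ≤ r → r ≤ n → |hps sz (Dn x) e r - hps sz (Dn y) e r| ≤ δ)
    (hs : 3 * (2 ^ (n + 1) * δ) + 3 * (4 * (1 / 3) ^ (n + 1)) + n * δ + 4 * (1 / 2) ^ (n - 1) ≤
      (1 / 2) ^ (N + 1))
    (hD : N ≤ ∑ u ∈ Dn x, (e + 1 - Nat.log 2 (sz u))) :
    ¬ x ≤ y ∧ ¬ y ≤ x ∧ |prob P x y - 1 / 2| ≤ (1 / 2) ^ N := by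
  have hxy : ¬ x ≤ y := fun h => hne (hx y h).symm
  have hyx : ¬ y ≤ x := fun h => hne (hy x h)
  refine ⟨hxy, hyx, ?_⟩
  rw [prob_eq hP hxy hyx]
  have ha : x ∈ Ax ∅ x y := mem_Ax0.2 ⟨le_rfl, hxy⟩
  have hb : y ∈ Ax ∅ y x := mem_Ax0.2 ⟨le_rfl, hyx⟩
  have e0 : ((1 : ℝ) / 2) ^ N / 2 = (1 / 2) ^ (N + 1) := by
    rw [pow_succ]
    ring
  refine close2 sz (fun u _ => one_le_sz u) (fun u _ => one_le_sz u) (injOn_Ax' hP x y)
    (injOn_Ax' hP y x) ha hb (sz_max hx) (sz_max hy) e n hn hδ ?_ ?_ ?_ (by rw [e0]; exact hs) ?_ ?_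
  · intro j hj
    rw [sm_Ax hJ (by omega), sm_Ax (fun u h1 h2 => hJ u h2 h1) (by omega), sm_image hj, sm_image hj,
      hlow]
  · intro j h1 h2 r hr
    rw [← mom_sub]
    exact hm j h1 h2 r hr
  · intro r h1 h2
    rw [← hps_sub]
    exact hp r h1 h2
  · rw [e0]
    calc ((1 : ℝ) / 2) ^ (N + 1) * 2 ^ (e + 2) ≤ (1 / 2) ^ (N + 1) * 2 ^ (N + 1) := by
          apply mul_le_mul_of_nonneg_left _ (by positivity)
          exact pow_le_pow_right₀ (by norm_num) (by omega)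
      _ = 1 := by rw [← mul_pow]; norm_num
  · have h1 : ∑ u ∈ Dn x, (e + 1 - Nat.log 2 (sz u)) = ∑ u ∈ Ax ∅ x y, (e + 1 - Nat.log 2 (sz u)) := by
      symm
      apply Finset.sum_subset
      · intro u hu
        exact mem_Dn.2 (mem_Ax0.1 hu).1
      · intro u hu hu2
        rw [mem_Dn] at hu
        have h2 : u ≤ y := by
          by_contra h
          exact hu2 (mem_Ax0.2 ⟨hu, h⟩)
        have h4 := hJ u hu h2
        have h5 : J ≤ Nat.log 2 (sz u) := (Nat.le_log_iff_pow_le (by norm_num)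
          (by have := one_le_sz u; omega)).2 h4
        omega
    rw [← h1]
    exact pow_le_pow_of_le_one (by norm_num) (by norm_num) hD

lemma pow_ineq2 (N : ℕ) : 3 * (2 ^ (N + 5 + 1) * ((1 : ℝ) / 2) ^ (2 * N + 11)) +
    3 * (4 * (1 / 3) ^ (N + 5 + 1)) + ((N + 5 : ℕ) : ℝ) * (1 / 2) ^ (2 * N + 11) +
    4 * (1 / 2) ^ (N + 5 - 1) ≤ (1 / 2) ^ (N + 1) := by
  have h1 : (2 : ℝ) ^ (N + 5 + 1) * ((1 : ℝ) / 2) ^ (2 * N + 11) = (1 / 2) ^ N * (1 / 32) := by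
    have e1 : (2 : ℝ) ^ (N + 5 + 1) = 2 ^ (N + 6) := rfl
    have e2 : ((1 : ℝ) / 2) ^ (2 * N + 11) = (1 / 2) ^ (N + 6) * ((1 / 2) ^ N * (1 / 2) ^ 5) := by
      rw [← pow_add, ← pow_add]; congr 1; ring
    have e3 : (2 : ℝ) ^ (N + 6) * (1 / 2) ^ (N + 6) = 1 := by
      rw [← mul_pow]; norm_num
    rw [e1, e2, ← mul_assoc, e3, one_mul]
    norm_num
  have h2 : ((1 : ℝ) / 3) ^ (N + 5 + 1) ≤ (1 / 2) ^ N * (1 / 729) := by
    rw [show N + 5 + 1 = N + 6 by ring, pow_add]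
    have : ((1 : ℝ) / 3) ^ N ≤ (1 / 2) ^ N := pow_le_pow_left₀ (by norm_num) (by norm_num) N
    have h3 : ((1 : ℝ) / 3) ^ 6 = 1 / 729 := by norm_num
    rw [h3]
    exact mul_le_mul_of_nonneg_right this (by norm_num)
  have h3 : ((N + 5 : ℕ) : ℝ) * (1 / 2) ^ (2 * N + 11) ≤ (1 / 2) ^ N * (1 / 64) := by
    have h4 : N + 5 ≤ 2 ^ (N + 5) := (Nat.lt_two_pow_self).le
    have h5 : ((N + 5 : ℕ) : ℝ) ≤ 2 ^ (N + 5) := by exact_mod_cast h4
    have e2 : ((1 : ℝ) / 2) ^ (2 * N + 11) = (1 / 2) ^ (N + 5) * ((1 / 2) ^ N * (1 / 2) ^ 6) := by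
      rw [← pow_add, ← pow_add]; congr 1; ring
    have e3 : (2 : ℝ) ^ (N + 5) * (1 / 2) ^ (N + 5) = 1 := by
      rw [← mul_pow]; norm_num
    calc ((N + 5 : ℕ) : ℝ) * (1 / 2) ^ (2 * N + 11) ≤ 2 ^ (N + 5) * (1 / 2) ^ (2 * N + 11) :=
          mul_le_mul_of_nonneg_right h5 (by positivity)
      _ = (1 / 2) ^ N * (1 / 64) := by
          rw [e2, ← mul_assoc, e3, one_mul]
          norm_num
  have h4 : ((1 : ℝ) / 2) ^ (N + 5 - 1) = (1 / 2) ^ N * (1 / 16) := by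
    rw [show N + 5 - 1 = N + 4 by omega, pow_add]
    norm_num
  have h5 : ((1 : ℝ) / 2) ^ (N + 1) = (1 / 2) ^ N * (1 / 2) := by
    rw [pow_succ]
  rw [h1, h4, h5]
  have h6 : (0 : ℝ) < (1 / 2) ^ N := by positivity
  linarith

lemma card_ineq2 (N : ℕ) (hN : 1 ≤ N) :
    2 ^ (N + 2) * (N * (2 ^ (N * N) * (2 * 2 ^ (4 * N + 16) + 1) ^ (4 * (N + 6)))) <
      2 ^ (700 * N ^ 2) := by
  have h1 : 2 * 2 ^ (4 * N + 16) + 1 ≤ 2 ^ (4 * N + 18) := by
    have : 2 ^ (4 * N + 18) = 4 * 2 ^ (4 * N + 16) := by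
      rw [show 4 * N + 18 = 4 * N + 16 + 2 by ring, pow_add]; ring
    have h2 : 1 ≤ 2 ^ (4 * N + 16) := Nat.one_le_two_pow
    omega
  have h2 : N ≤ 2 ^ N := (Nat.lt_two_pow_self).le
  calc 2 ^ (N + 2) * (N * (2 ^ (N * N) * (2 * 2 ^ (4 * N + 16) + 1) ^ (4 * (N + 6)))) ≤
      2 ^ (N + 2) * (2 ^ N * (2 ^ (N * N) * (2 ^ (4 * N + 18)) ^ (4 * (N + 6)))) := by
        apply Nat.mul_le_mul_left
        apply Nat.mul_le_mul h2
        apply Nat.mul_le_mul_left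
        exact Nat.pow_le_pow_left h1 _
    _ = 2 ^ (N + 2 + (N + (N * N + (4 * N + 18) * (4 * (N + 6))))) := by
        rw [← pow_mul, ← pow_add, ← pow_add, ← pow_add]
    _ < 2 ^ (700 * N ^ 2) := by
        apply Nat.pow_lt_pow_right (by norm_num)
        nlinarith

/-- the real numbers to be rounded -/
noncomputable def valf (ex : P → ℕ) (b : ℝ) (N : ℕ) (x : P) (p : Fin 4 × Fin (N + 6)) : ℝ :=
  if (p.1 : ℕ) < 3 then mom sz (Dn x) (ex x + p.1) p.2 else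
    if (p.2 : ℕ) = 0 then 0 else
      if (p.2 : ℕ) = 1 then hps sz (Dn x) (ex x) 1 - 2 ^ (ex x + 2) * b else
        hps sz (Dn x) (ex x) p.2

omit [DecidableEq P] in
lemma valf_mid {ex : P → ℕ} {b : ℝ} {N : ℕ} {x : P} {i r : ℕ} (hi : i < 3) (hr : r < N + 6) :
    valf ex b N x (⟨i, by omega⟩, ⟨r, hr⟩) = mom sz (Dn x) (ex x + i) r := by
  unfold valf
  simp [hi]

omit [DecidableEq P] in
lemma valf_hi {ex : P → ℕ} {b : ℝ} {N : ℕ} {x : P} {r : ℕ} (hr0 : 1 ≤ r) (hr : r < N + 6) :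
    valf ex b N x (⟨3, by omega⟩, ⟨r, hr⟩) = hps sz (Dn x) (ex x) r -
      (if r = 1 then 2 ^ (ex x + 2) * b else 0) := by
  unfold valf
  by_cases h1 : r = 1
  · subst h1
    simp
  · have h0 : r ≠ 0 := by omega
    simp [h0, h1]

/-- **forests with many leaves** -/
theorem many_leaves (hP : Forest P) (N : ℕ) (hN : 1 ≤ N) (Lv : Finset P)
    (hLv : ∀ x ∈ Lv, ∀ v, x ≤ v → v = x) (hc : 2 ^ (700 * N ^ 2) ≤ Lv.card) :
    ∃ x y : P, ¬ x ≤ y ∧ ¬ y ≤ x ∧ |prob P x y - 1 / 2| ≤ (1 / 2) ^ N := by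
  classical
  obtain ⟨J, hJ⟩ : ∃ J, J = N + 2 := ⟨_, rfl⟩
  obtain ⟨S, hSL, hSc, hSJ⟩ := select hP Lv hLv J (by omega)
  have hSpos : 0 < S.card := by
    have : 0 < Lv.card := lt_of_lt_of_le (by positivity) hc
    by_contra h
    have h0 : S.card = 0 := by omega
    rw [h0] at hSc
    omega
  have hSne : S.Nonempty := Finset.card_pos.1 hSpos
  obtain ⟨l, hl, hmin⟩ := Finset.exists_min_image S (fun x => bS sz (Dn x) J) hSne
  have hJN : (2 : ℝ) ^ N ≤ 2 ^ J := pow_le_pow_right₀ (by norm_num) (by omega)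
  by_cases h : ∃ x ∈ S, 2 ^ J + 3 ≤ bS sz (Dn x) J - bS sz (Dn l) J
  · obtain ⟨x, hx, hxb⟩ := h
    obtain ⟨w, h1, h2, h3⟩ := caseB hP (x := x) (hLv l (hSL hl)) J (by omega) hxb
    refine ⟨w, l, h1, h2, h3.trans ?_⟩
    rw [one_div_pow]
    exact one_div_le_one_div_of_le (by positivity) (by linarith)
  push Not at h
  have hdi := injOn_Dn hP
  have hex : ∀ x : P, ∃ e, x ∈ S → e + 1 ≤ N ∧ N ≤ ∑ u ∈ Dn x, (e + 1 - Nat.log 2 (sz u)) ∧
      ∑ u ∈ Dn x, (e - Nat.log 2 (sz u)) < N := by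
    intro x
    by_cases hx : x ∈ S
    · obtain ⟨e, he⟩ := exists_e (hLv x (hSL hx)) hN
      exact ⟨e, fun _ => he⟩
    · exact ⟨0, fun h => absurd h hx⟩
  choose ex hex using hex
  obtain ⟨M, hM⟩ : ∃ M : ℤ, M = 2 ^ (4 * N + 16) := ⟨_, rfl⟩
  obtain ⟨val, hval⟩ : ∃ val : P → Fin 4 × Fin (N + 6) → ℝ,
    val = valf ex (bS sz (Dn l) J) N := ⟨_, rfl⟩
  have hvalb : ∀ x ∈ S, ∀ p, |val x p| ≤ 2 ^ (2 * N + 5) := by
    intro x hx p
    obtain ⟨he1, he2, he3⟩ := hex x hx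
    rw [hval]
    unfold valf
    split_ifs with h1 h2 h3
    · refine (abs_mom_le hdi x _ _).trans ?_
      exact pow_le_pow_right₀ (by norm_num) (by omega)
    · rw [abs_zero]
      positivity
    · have a1 := bS_mono x (show ex x + 3 ≤ J by omega)
      have a2 := bS_le hdi x (ex x + 3) J
      have a3 := hmin x hx
      have a4 := h x hx
      rw [hps_one, ← mul_sub, abs_of_nonneg (mul_nonneg (by positivity) (by linarith))]
      have a5 : bS sz (Dn x) (ex x + 3) - bS sz (Dn l) J ≤ 2 ^ (N + 4) := by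
        have : (2 : ℝ) ^ (N + 4) = 4 * 2 ^ J := by
          rw [hJ, show N + 4 = N + 2 + 2 by ring, pow_add (2 : ℝ) (N + 2) 2]
          ring
        have a6 : (4 : ℝ) ≤ 2 ^ J := by
          calc (4 : ℝ) = 2 ^ 2 := by norm_num
            _ ≤ 2 ^ J := pow_le_pow_right₀ (by norm_num) (by omega)
        linarith
      calc (2 : ℝ) ^ (ex x + 2) * (bS sz (Dn x) (ex x + 3) - bS sz (Dn l) J) ≤
          2 ^ (N + 1) * 2 ^ (N + 4) := by
            apply mul_le_mul _ a5 (by linarith) (by positivity)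
            exact pow_le_pow_right₀ (by norm_num) (by omega)
        _ = 2 ^ (2 * N + 5) := by rw [← pow_add]; congr 1; ring
    · rw [abs_of_nonneg (hps_nonneg x _ _)]
      refine (hps_le hdi x _ (by omega)).trans ?_
      exact pow_le_pow_right₀ (by norm_num) (by omega)
  obtain ⟨T, hT⟩ : ∃ T : Finset (ℕ × Finset ℕ × (Fin 4 × Fin (N + 6) → ℤ)), T =
      Finset.range N ×ˢ (LowSets N ×ˢ (Fintype.piFinset fun _ => Finset.Icc (-M) M)) := ⟨_, rfl⟩
  obtain ⟨code, hcd⟩ : ∃ code : P → ℕ × Finset ℕ × (Fin 4 × Fin (N + 6) → ℤ), code = fun x =>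
      (ex x, lowS x (ex x), fun p => ⌊val x p * 2 ^ (2 * N + 11)⌋) := ⟨_, rfl⟩
  have hcode : ∀ x ∈ S, code x ∈ T := by
    intro x hx
    obtain ⟨he1, he2, he3⟩ := hex x hx
    rw [hT, hcd, Finset.mem_product, Finset.mem_product]
    refine ⟨Finset.mem_range.2 (show ex x < N by omega), lowS_mem he1 he3, ?_⟩
    rw [Fintype.mem_piFinset]
    intro p
    rw [Finset.mem_Icc]
    have h2 : |val x p * 2 ^ (2 * N + 11)| ≤ 2 ^ (4 * N + 16) := by
      rw [abs_mul, abs_of_pos (by positivity : (0 : ℝ) < 2 ^ (2 * N + 11))]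
      calc |val x p| * 2 ^ (2 * N + 11) ≤ 2 ^ (2 * N + 5) * 2 ^ (2 * N + 11) :=
            mul_le_mul_of_nonneg_right (hvalb x hx p) (by positivity)
        _ = 2 ^ (4 * N + 16) := by rw [← pow_add]; congr 1; ring
    rw [abs_le] at h2
    constructor
    · show -M ≤ ⌊val x p * 2 ^ (2 * N + 11)⌋
      rw [Int.le_floor, hM]
      push_cast
      exact h2.1
    · have h3 : ((⌊val x p * 2 ^ (2 * N + 11)⌋ : ℤ) : ℝ) ≤ ((M : ℤ) : ℝ) :=
        (Int.floor_le _).trans (by rw [hM]; push_cast; exact h2.2)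
      exact Int.cast_le.1 h3
  have hTcard : T.card < S.card := by
    have h1 : T.card ≤ N * (2 ^ (N * N) * (2 * 2 ^ (4 * N + 16) + 1) ^ (4 * (N + 6))) := by
      rw [hT, Finset.card_product, Finset.card_product, Fintype.card_piFinset, Finset.card_range]
      apply Nat.mul_le_mul_left
      apply Nat.mul_le_mul (card_LowSets N)
      simp only [Int.card_Icc, Finset.prod_const, Finset.card_univ, Fintype.card_prod,
        Fintype.card_fin]
      apply Nat.pow_le_pow_left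
      rw [hM]
      have : ((2 : ℤ) ^ (4 * N + 16) + 1 - -2 ^ (4 * N + 16)) =
          ((2 * 2 ^ (4 * N + 16) + 1 : ℕ) : ℤ) := by
        push_cast
        ring
      rw [this, Int.toNat_natCast]
    have h2 := card_ineq2 N hN
    by_contra hcon
    rw [not_lt] at hcon
    have h3 : Lv.card < 2 ^ (700 * N ^ 2) := by
      refine lt_of_le_of_lt (hSc.trans ?_) h2
      rw [hJ]
      exact Nat.mul_le_mul_left _ (hcon.trans h1)
    omega
  obtain ⟨x, hx, y, hy, hxy, hxyc⟩ :=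
    Finset.exists_ne_map_eq_of_card_lt_of_maps_to hTcard hcode
  rw [hcd] at hxyc
  have hc1 : ex x = ex y := congrArg Prod.fst hxyc
  have hc2 : lowS x (ex x) = lowS y (ex y) := congrArg (fun z => z.2.1) hxyc
  have hc3 : (fun p => ⌊val x p * 2 ^ (2 * N + 11)⌋) = fun p => ⌊val y p * 2 ^ (2 * N + 11)⌋ :=
    congrArg (fun z => z.2.2) hxyc
  have hclose : ∀ p, |val x p - val y p| ≤ (1 / 2) ^ (2 * N + 11) := by
    intro p
    have h2 := Int.abs_sub_lt_one_of_floor_eq_floor (congrFun hc3 p)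
    rw [← sub_mul, abs_mul, abs_of_pos (by positivity : (0 : ℝ) < 2 ^ (2 * N + 11))] at h2
    rw [one_div_pow, le_div_iff₀ (by positivity)]
    exact h2.le
  obtain ⟨he1, he2, he3⟩ := hex x hx
  have hδpos : (0 : ℝ) < (1 / 2) ^ (2 * N + 11) := by positivity
  have hA := caseA2 hP (hLv x (hSL hx)) (hLv y (hSL hy)) hxy (J := J) (e := ex x) (n := N + 5)
    (N := N) (hSJ x hx y hy hxy) (by omega) he1 (by omega) (δ := (1 / 2) ^ (2 * N + 11))
    (pow_lt_one₀ (by norm_num) (by norm_num) (by omega)) (by rw [hc2, hc1]) ?_ ?_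
    (pow_ineq2 N) he2
  · exact ⟨x, y, hA⟩
  · intro j h1 h2 r hr
    have h3 := hclose (⟨j - ex x, by omega⟩, ⟨r, by omega⟩)
    rw [hval, valf_mid (by omega) (by omega), valf_mid (by omega) (by omega), ← hc1] at h3
    have h4 : ex x + (j - ex x) = j := by omega
    rw [h4] at h3
    exact h3
  · intro r h1 h2
    have h3 := hclose (⟨3, by omega⟩, ⟨r, by omega⟩)
    rw [hval, valf_hi h1 (by omega), valf_hi h1 (by omega), ← hc1, sub_sub_sub_cancel_right] at h3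
    exact h3

/-- **forests with a large antichain** -/
theorem forest_balance (hP : Forest P) (N : ℕ) (hN : 1 ≤ N) (S : Finset P)
    (hS : ∀ x ∈ S, ∀ y ∈ S, x ≤ y → x = y) (hc : 2 ^ (700 * N ^ 2) ≤ S.card) :
    ∃ x y : P, ¬ x ≤ y ∧ ¬ y ≤ x ∧ |prob P x y - 1 / 2| ≤ (1 / 2) ^ N := by
  classical
  have hmax : ∀ x : P, ∃ z, x ≤ z ∧ ∀ v, z ≤ v → v = z := by
    intro x
    obtain ⟨z, hz⟩ := (univ.filter (fun z => x ≤ z)).exists_maximal ⟨x, by simp⟩
    have h1 := hz.1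
    simp only [Finset.mem_filter, Finset.mem_univ, true_and] at h1
    refine ⟨z, h1, fun v hv => ?_⟩
    exact le_antisymm (hz.2 (by simpa using h1.trans hv) hv) hv
  choose g hg1 hg2 using hmax
  have hinj : Set.InjOn g S := by
    intro x hx y hy h
    rcases hP (g x) x y (hg1 x) (h ▸ hg1 y) with h1 | h1
    · exact hS x hx y hy h1
    · exact (hS y hy x hx h1).symm
  refine many_leaves hP N hN (S.image g) ?_ ?_
  · intro z hz v hv
    rw [Finset.mem_image] at hz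
    obtain ⟨x, _, rfl⟩ := hz
    exact hg2 x v hv
  · rw [Finset.card_image_of_injOn hinj]
    exact hc

end Pool.Agent.W5h81.RF
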